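import Pool.Agent.CdV.Counter

set_option autoImplicit false
set_option linter.all false

namespace Pool.Agent.Results.MP_765e2d_co.TwelveVertices

open Matrix

/-- The symmetric matrix `M` is a discrete Schrödinger operator on the graph `G` (an element of
the set `𝓜(G)` of the problem): negative on the edges, zero on the non-edges off the diagonal,
exactly one negative eigenvalue counted with multiplicity. -/
def IsSchrodinger {n : ℕ} (G : SimpleGraph (Fin n)) (M : Matrix (Fin n) (Fin n) ℝ) : Prop :=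
  M.IsSymm ∧ (∀ i j, G.Adj i j → M i j < 0) ∧ (∀ i j, i ≠ j → ¬ G.Adj i j → M i j = 0) ∧
    ∃ h : M.IsHermitian, (Finset.univ.filter (fun i => h.eigenvalues i < 0)).card = 1

/-- The corank of a matrix: the dimension of its kernel. -/
noncomputable def corank {n : ℕ} (M : Matrix (Fin n) (Fin n) ℝ) : ℕ :=
  Module.finrank ℝ (LinearMap.ker (Matrix.toLin' M))

/-- The Strong Arnold Property. -/
def SAP {n : ℕ} (G : SimpleGraph (Fin n)) (M : Matrix (Fin n) (Fin n) ℝ) : Prop :=
  ∀ X : Matrix (Fin n) (Fin n) ℝ, X.IsSymm → M * X = 0 → (∀ i, X i i = 0) →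
    (∀ i j, G.Adj i j → X i j = 0) → X = 0

/-- The Colin de Verdière parameter. -/
noncomputable def mu {n : ℕ} (G : SimpleGraph (Fin n)) : ℕ :=
  sSup {c : ℕ | ∃ M : Matrix (Fin n) (Fin n) ℝ, IsSchrodinger G M ∧ SAP G M ∧ corank M = c}

/-- `k`-connectedness. -/
def KConnected {n : ℕ} (G : SimpleGraph (Fin n)) (k : ℕ) : Prop :=
  k < n ∧ ∀ S : Finset (Fin n), S.card < k → (G.induce ((S : Set (Fin n))ᶜ)).Connected

/-- There is a `6`-connected graph `G` on twelve vertices all of whose discrete Schrödinger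
operators with the Strong Arnold Property have corank at most `6` and which has a discrete
Schrödinger operator of corank at least `7`. So `G` is `μ(G)`-connected and the maximum corank
is larger than `μ(G)`. -/
theorem result :
    ∃ G : SimpleGraph (Fin 12), KConnected G 6 ∧
      (∀ M : Matrix (Fin 12) (Fin 12) ℝ, IsSchrodinger G M → SAP G M → corank M ≤ 6) ∧
      KConnected G (mu G) ∧
      ∃ M : Matrix (Fin 12) (Fin 12) ℝ, IsSchrodinger G M ∧ 7 ≤ corank M ∧ mu G < corank M := by
  have h6 : ∀ M : Matrix (Fin 12) (Fin 12) ℝ, IsSchrodinger Pool.Agent.CdV.Counter.G M →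
      SAP Pool.Agent.CdV.Counter.G M → corank M ≤ 6 := by
    rintro M ⟨hs, h2, h3, -⟩ h5
    by_contra hc
    push Not at hc
    obtain ⟨X, hX1, hX2, hX3, hX4⟩ := Pool.Agent.CdV.Counter.exists_stress hs h2 h3 hc
    exact hX4 (h5 X hX1 hX3 (fun i => hX2 i i (Or.inl rfl)) (fun i j h => hX2 i j (Or.inr h)))
  have hmu : mu Pool.Agent.CdV.Counter.G ≤ 6 := by
    apply csSup_le'
    rintro c ⟨M, h1, h2, rfl⟩
    exact h6 M h1 h2
  have hcon : ∀ k ≤ 6, KConnected Pool.Agent.CdV.Counter.G k := fun k hk =>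
    ⟨by omega, fun S hS => Pool.Agent.CdV.Counter.connected (by omega)⟩
  have h7 : 7 ≤ corank Pool.Agent.CdV.Counter.M0 := Pool.Agent.CdV.Counter.M0_corank
  exact ⟨Pool.Agent.CdV.Counter.G, hcon 6 le_rfl, h6, hcon _ hmu, Pool.Agent.CdV.Counter.M0,
    ⟨Pool.Agent.CdV.Counter.M0_symm, Pool.Agent.CdV.Counter.M0_neg,
      Pool.Agent.CdV.Counter.M0_zero, Pool.Agent.CdV.Counter.M0_herm,
      Pool.Agent.CdV.Counter.M0_inertia _⟩, h7, by omega⟩

end Pool.Agent.Results.MP_765e2d_co.TwelveVertices
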